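import Pool.Agent.X86.CF.Sum

set_option autoImplicit false

open Filter Topology

namespace Pool.Agent.X86.CF

def Good (x : ℝ) (l1 l2 : List ℕ) (w : ℕ) : Prop := G x l1 l2 w ∨ G x l2 l1 w

theorem super_aux {x : ℝ} (hx : Irrational x) {lm lo : List ℕ} {w : ℕ} (hw : 3 ≤ w)
    (hG : G x lm lo w) : ∃ t1 t2 : List ℕ, ∃ w' : ℕ, (∀ a ∈ t1, w ≤ a + 2) ∧
      (∀ a ∈ t2, w ≤ a + 2) ∧ t1 ≠ [] ∧ t2 ≠ [] ∧ w + 1 ≤ w' ∧
      Good x (t1 ++ lm) (t2 ++ lo) w' := by
  obtain ⟨t1, t2, h1, h2, h3, h4 | h4⟩ := round hx hw hG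
  · exact ⟨t1, t2, w + 1, h1, h2, h3, h4.1, le_rfl, Or.inl h4.2⟩
  · obtain ⟨h5, h6⟩ := h4
    obtain ⟨s1, s2, g1, g2, g3, g4⟩ := round hx (by omega : 3 ≤ w + 1) h6
    refine ⟨s2 ++ t1, s1, w + 1 + 1, ?_, ?_, ?_, g3, by omega, ?_⟩
    · intro a ha
      rcases List.mem_append.mp ha with h | h
      · have := g2 a h; omega
      · exact h1 a h
    · intro a ha
      have := g1 a ha; omega
    · intro h
      exact h3 (List.append_eq_nil_iff.mp h).2
    · rw [List.append_assoc]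
      rcases g4 with g4 | g4
      · exact Or.inr g4.2
      · obtain ⟨g5, g6⟩ := g4
        rw [g5, List.nil_append]
        exact Or.inl g6

theorem super {x : ℝ} (hx : Irrational x) {l1 l2 : List ℕ} {w : ℕ} (hw : 3 ≤ w)
    (hG : Good x l1 l2 w) : ∃ t1 t2 : List ℕ, ∃ w' : ℕ, (∀ a ∈ t1, w ≤ a + 2) ∧
      (∀ a ∈ t2, w ≤ a + 2) ∧ t1 ≠ [] ∧ t2 ≠ [] ∧ w + 1 ≤ w' ∧
      Good x (t1 ++ l1) (t2 ++ l2) w' := by
  rcases hG with h | h
  · exact super_aux hx hw h
  · obtain ⟨t1, t2, w', h1, h2, h3, h4, h5, h6⟩ := super_aux hx hw h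
    exact ⟨t2, t1, w', h2, h1, h4, h3, h5, h6.symm⟩

theorem G_close {x : ℝ} {l1 l2 : List ℕ} {w : ℕ} (hw : 3 ≤ w) (h : G x l1 l2 w) :
    |x - (val l1 + val l2)| ≤ 1 / w := by
  obtain ⟨h1, h2, -, h4, h5, -⟩ := h
  have hw' : (3:ℝ) ≤ w := by exact_mod_cast hw
  have hA : (1:ℝ) ≤ (den l1).1 := by exact_mod_cast (den_pos h1).1
  have hB : (1:ℝ) ≤ (den l2).1 := by exact_mod_cast (den_pos h2).1
  have habs : |x - (val l1 + val l2)| = sg l1 * (x - val l1 - val l2) := by
    rw [← abs_of_pos h4, abs_mul]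
    have : |sg l1| = 1 := by unfold sg; rw [abs_pow]; simp
    rw [this, one_mul]
    congr 1
    ring
  rw [habs, le_div_iff₀ (by linarith)]
  set r := sg l1 * (x - val l1 - val l2) with hr
  have h6 : (1:ℝ) ≤ (den l1).1 * (den l2).1 := by nlinarith
  have h7 : w * r * 1 ≤ w * r * ((den l1).1 * (den l2).1) := by
    apply mul_le_mul_of_nonneg_left h6
    positivity
  linarith

theorem Good_close {x : ℝ} {l1 l2 : List ℕ} {w : ℕ} (hw : 3 ≤ w) (h : Good x l1 l2 w) :
    |x - (val l1 + val l2)| ≤ 1 / w := by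
  rcases h with h | h
  · exact G_close hw h
  · rw [add_comm]; exact G_close hw h

/-- new digits are in the new part -/
theorem R_new (a : ℕ → ℕ) (M j : ℕ) : ∀ t : List ℕ, R a (M + j) = t ++ R a M →
    ∀ n, M ≤ n → n < M + j → a n ∈ t := by
  induction j with
  | zero => intro t _ n h1 h2; omega
  | succ j ih =>
    intro t ht n h1 h2
    rw [← add_assoc] at ht
    cases t with
    | nil =>
      exfalso
      have := congrArg List.length ht
      rw [R_length, List.nil_append, R_length] at this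
      omega
    | cons c t =>
      simp only [R, List.cons_append, List.cons.injEq] at ht
      obtain ⟨h3, h4⟩ := ht
      rcases eq_or_ne n (M + j) with h5 | h5
      · rw [h5, h3]; exact List.mem_cons_self
      · exact List.mem_cons_of_mem _ (ih t h4 n h1 (by omega))

theorem tendsto_of_chain (L : ℕ → List ℕ) (W : ℕ → ℕ) (hW : ∀ k, k + 3 ≤ W k)
    (hstep : ∀ k, ∃ t : List ℕ, t ≠ [] ∧ (∀ c ∈ t, W k ≤ c + 2) ∧ L (k + 1) = t ++ L k)
    (hp : ∀ k, Pos (L k)) (hgrow : ∀ k, k ≤ (L k).length) :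
    ∃ a : ℕ → ℕ, (∀ i, 1 ≤ a i) ∧ (∀ k, L k = R a (L k).length) ∧ Tendsto a atTop atTop := by
  have hs : ∀ k, L k <:+ L (k + 1) := by
    intro k
    obtain ⟨t, -, -, h⟩ := hstep k
    rw [h]
    exact List.suffix_append _ _
  obtain ⟨a, ha⟩ := exists_limit L hs hgrow
  have key : ∀ k m, k ≤ m → ∀ n, (L k).length ≤ n → n < (L m).length → k + 1 ≤ a n := by
    intro k m hkm
    induction hkm with
    | refl => intro n h1 h2; omega
    | @step m hkm ih =>
      intro n h1 h2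
      rcases lt_or_ge n (L m).length with h | h
      · exact ih n h1 h
      · obtain ⟨t, ht0, ht1, ht2⟩ := hstep m
        obtain ⟨j, hj⟩ : ∃ j, (L (m + 1)).length = (L m).length + j := by
          rw [ht2, List.length_append]; exact ⟨t.length, by omega⟩
        have h3 : R a ((L m).length + j) = t ++ R a (L m).length := by
          rw [← hj, ← ha (m + 1), ← ha m, ht2]
        have h4 := R_new a _ j t h3 n h (by
          have : n < (L (m + 1)).length := h2
          omega)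
        have h5 := ht1 _ h4
        have h6 := hW m
        have hkm' : k ≤ m := hkm
        omega
  refine ⟨a, ?_, ha, ?_⟩
  · intro i
    have h1 := hp (i + 1)
    rw [ha (i + 1)] at h1
    have h2 := hgrow (i + 1)
    apply h1
    rw [R_eq, List.mem_reverse, List.mem_map]
    exact ⟨i, List.mem_range.mpr (by omega), rfl⟩
  · rw [tendsto_atTop_atTop]
    intro K
    refine ⟨(L K).length, fun n hn => ?_⟩
    have h1 := key K (max K (n + 1)) (le_max_left _ _) n hn (by
      have := hgrow (max K (n + 1))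
      have : n + 1 ≤ max K (n + 1) := le_max_right _ _
      omega)
    omega

theorem Good_pos {x : ℝ} {l1 l2 : List ℕ} {w : ℕ} (h : Good x l1 l2 w) : Pos l1 ∧ Pos l2 := by
  rcases h with h | h
  · exact ⟨h.1, h.2.1⟩
  · exact ⟨h.2.1, h.1⟩

theorem irrational_case {x : ℝ} (hx0 : 0 < x) (hx1 : x < 1) (hx : Irrational x) :
    ∃ (a b : ℕ → ℕ) (ξ ζ : ℕ → ℝ), Tendsto a atTop atTop ∧ Tendsto b atTop atTop ∧
      (∀ i, 1 < ξ i ∧ ξ i = a i + 1 / ξ (i + 1)) ∧ (∀ i, 1 < ζ i ∧ ζ i = b i + 1 / ζ (i + 1)) ∧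
      x = 1 / ξ 0 + 1 / ζ 0 := by
  -- the digits of `x`
  let y : ℕ → ℝ := fun n => Nat.rec (1 / x) (fun _ u => 1 / Int.fract u) n
  have hy0 : y 0 = 1 / x := rfl
  have hys : ∀ n, y (n + 1) = 1 / Int.fract (y n) := fun n => rfl
  have hyirr : ∀ n, Irrational (y n) ∧ 1 < y n := by
    intro n
    induction n with
    | zero =>
      refine ⟨?_, ?_⟩
      · rw [hy0, one_div]; exact hx.inv
      · rw [hy0, lt_div_iff₀ hx0]; linarith
    | succ n ih =>
      have hfr : Int.fract (y n) = y n - ⌊y n⌋ := rfl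
      have hirr : Irrational (Int.fract (y n)) := by
        rw [hfr]; exact ih.1.sub_intCast _
      have hpos : 0 < Int.fract (y n) :=
        lt_of_le_of_ne (Int.fract_nonneg _) (fun h => by
          apply hirr.ne_zero; exact h.symm)
      refine ⟨?_, ?_⟩
      · rw [hys, one_div]; exact hirr.inv
      · rw [hys, lt_div_iff₀ hpos, one_mul]; exact Int.fract_lt_one _
  let d : ℕ → ℕ := fun n => ⌊y n⌋.toNat
  have hd : ∀ n, (d n : ℝ) = ⌊y n⌋ := by
    intro n
    have h1 : (0:ℤ) ≤ ⌊y n⌋ := by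
      apply Int.floor_nonneg.mpr
      linarith [(hyirr n).2]
    have h2 : ((d n : ℕ) : ℤ) = ⌊y n⌋ := Int.toNat_of_nonneg h1
    exact_mod_cast congrArg (fun z : ℤ => (z : ℝ)) h2
  have hd1 : ∀ n, 1 ≤ d n := by
    intro n
    have h1 : (1:ℤ) ≤ ⌊y n⌋ := by
      rw [Int.le_floor]
      push_cast
      exact (hyirr n).2.le
    show 1 ≤ ⌊y n⌋.toNat
    omega
  have hyrec : ∀ i, 1 < y i ∧ y i = d i + 1 / y (i + 1) := by
    intro i
    refine ⟨(hyirr i).2, ?_⟩
    rw [hys, one_div_one_div, hd]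
    exact (Int.floor_add_fract (y i)).symm
  -- the initial state
  have hinit : Good x [] (R d 4) 3 := by
    left
    have herr := err hd1 hyrec 4
    have hsg : sg (R d 4) = 1 := by
      unfold sg; rw [R_length]; norm_num
    have hy0' : 1 / y 0 = x := by rw [hy0, one_div_one_div]
    rw [hsg, hy0'] at herr
    have hq : (4:ℝ) ≤ (den (R d 4)).1 := by exact_mod_cast (den_R_ge hd1 4).1
    have hy4 := (hyrec 4).1
    have hqq : (0:ℝ) ≤ (den (R d 4)).2 := Nat.cast_nonneg _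
    have hval0 : val [] = 0 := by simp [val, num, den]
    have hsg0 : sg [] = 1 := by simp [sg]
    have hden0 : ((den []).1 : ℝ) = 1 := by simp [den]
    set q : ℝ := ((den (R d 4)).1 : ℝ) with hqdef
    set q' : ℝ := ((den (R d 4)).2 : ℝ) with hqdef'
    have hpos : 0 < q * (q * y 4 + q') := by
      apply mul_pos (by linarith)
      have : 0 < q * y 4 := mul_pos (by linarith) (by linarith)
      linarith
    have hr : sg [] * (x - val [] - val (R d 4)) = 1 / (q * (q * y 4 + q')) := by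
      rw [hsg0, hval0]
      linarith
    refine ⟨?_, R_pos hd1 4, ?_, ?_, ?_, ?_⟩
    · intro c hc; simp at hc
    · rw [hsg0, hsg]
    · rw [hr]; positivity
    · rw [hr, hden0, ← hqdef, mul_one_div, div_le_one hpos]
      push_cast
      have h1 : 4 ≤ q * y 4 + q' := by nlinarith
      nlinarith
    · exact (den_pos (R_pos hd1 4)).1
  -- the chain
  let S : Type := {p : List ℕ × List ℕ × ℕ // 3 ≤ p.2.2 ∧ Good x p.1 p.2.1 p.2.2}
  have hnext : ∀ p : S, ∃ p' : S, p.1.2.2 + 1 ≤ p'.1.2.2 ∧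
      (∃ t : List ℕ, t ≠ [] ∧ (∀ c ∈ t, p.1.2.2 ≤ c + 2) ∧ p'.1.1 = t ++ p.1.1) ∧
      (∃ t : List ℕ, t ≠ [] ∧ (∀ c ∈ t, p.1.2.2 ≤ c + 2) ∧ p'.1.2.1 = t ++ p.1.2.1) := by
    rintro ⟨⟨l1, l2, w⟩, hw, hg⟩
    obtain ⟨t1, t2, w', h1, h2, h3, h4, h5, h6⟩ := super hx hw hg
    have hw3 : 3 ≤ w := hw
    have hw3' : 3 ≤ w' := by omega
    exact ⟨⟨(t1 ++ l1, t2 ++ l2, w'), hw3', h6⟩, h5,
      ⟨t1, h3, h1, rfl⟩, ⟨t2, h4, h2, rfl⟩⟩
  choose nx hnx using hnext
  let C : ℕ → S := fun n => Nat.rec ⟨([], R d 4, 3), le_rfl, hinit⟩ (fun _ p => nx p) n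
  have hC : ∀ n, C (n + 1) = nx (C n) := fun n => rfl
  have hW : ∀ k, k + 3 ≤ (C k).1.2.2 := by
    intro k
    induction k with
    | zero => exact le_rfl
    | succ k ih =>
      have := (hnx (C k)).1
      rw [hC]
      omega
  have hg1 : ∀ k, k ≤ (C k).1.1.length := by
    intro k
    induction k with
    | zero => exact Nat.zero_le _
    | succ k ih =>
      obtain ⟨t, ht, -, h⟩ := (hnx (C k)).2.1
      rw [hC, h, List.length_append]
      have : 0 < t.length := List.length_pos_iff.mpr ht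
      omega
  have hg2 : ∀ k, k ≤ (C k).1.2.1.length := by
    intro k
    induction k with
    | zero => exact Nat.zero_le _
    | succ k ih =>
      obtain ⟨t, ht, -, h⟩ := (hnx (C k)).2.2
      rw [hC, h, List.length_append]
      have : 0 < t.length := List.length_pos_iff.mpr ht
      omega
  obtain ⟨a, ha1, haR, hat⟩ := tendsto_of_chain (fun k => (C k).1.1) (fun k => (C k).1.2.2) hW
    (fun k => by rw [hC]; exact (hnx (C k)).2.1) (fun k => (Good_pos (C k).2.2).1) hg1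
  obtain ⟨b, hb1, hbR, hbt⟩ := tendsto_of_chain (fun k => (C k).1.2.1) (fun k => (C k).1.2.2) hW
    (fun k => by rw [hC]; exact (hnx (C k)).2.2) (fun k => (Good_pos (C k).2.2).2) hg2
  obtain ⟨ξ, hξ⟩ := exists_quot a ha1
  obtain ⟨ζ, hζ⟩ := exists_quot b hb1
  refine ⟨a, b, ξ, ζ, hat, hbt, hξ, hζ, ?_⟩
  have hl1 : Tendsto (fun k => (C k).1.1.length) atTop atTop :=
    tendsto_atTop_mono hg1 tendsto_id
  have hl2 : Tendsto (fun k => (C k).1.2.1.length) atTop atTop :=
    tendsto_atTop_mono hg2 tendsto_id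
  have h1 : Tendsto (fun k => val (C k).1.1) atTop (𝓝 (1 / ξ 0)) := by
    have h := (val_tendsto ha1 hξ).comp hl1
    refine h.congr (fun k => ?_)
    simp only [Function.comp]
    rw [← haR k]
  have h2 : Tendsto (fun k => val (C k).1.2.1) atTop (𝓝 (1 / ζ 0)) := by
    have h := (val_tendsto hb1 hζ).comp hl2
    refine h.congr (fun k => ?_)
    simp only [Function.comp]
    rw [← hbR k]
  have h3 : Tendsto (fun k => val (C k).1.1 + val (C k).1.2.1) atTop (𝓝 x) := by
    rw [tendsto_iff_dist_tendsto_zero]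
    have h0 : Tendsto (fun k : ℕ => 1 / ((C k).1.2.2 : ℝ)) atTop (𝓝 0) := by
      have hWt : Tendsto (fun k => (C k).1.2.2) atTop atTop :=
        tendsto_atTop_mono (fun k => by have := hW k; simp only [id]; omega) tendsto_id
      exact tendsto_one_div_atTop_nhds_zero_nat.comp hWt
    refine tendsto_of_tendsto_of_tendsto_of_le_of_le tendsto_const_nhds h0
      (fun k => dist_nonneg) (fun k => ?_)
    rw [dist_comm, Real.dist_eq]
    exact Good_close (C k).2.1 (C k).2.2
  exact tendsto_nhds_unique h3 (h1.add h2)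

end Pool.Agent.X86.CF
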