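import Mathlib

set_option autoImplicit false

open Filter Topology

namespace Pool.Agent.X86.CF

/-- Every sequence of positive digits is realised by complete quotients. -/
theorem exists_quot (a : ℕ → ℕ) (ha : ∀ i, 1 ≤ a i) :
    ∃ ξ : ℕ → ℝ, ∀ i, 1 < ξ i ∧ ξ i = a i + 1 / ξ (i + 1) := by
  let K : ℕ → Set (ℕ → ℝ) := fun N =>
    (Set.univ.pi fun i => Set.Icc (1:ℝ) (a i + 1)) ∩
      {ξ : ℕ → ℝ | ∀ i < N, ξ i * ξ (i+1) = a i * ξ (i + 1) + 1}
  have hcomp : IsCompact (Set.univ.pi fun i => Set.Icc (1:ℝ) (a i + 1)) :=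
    isCompact_univ_pi fun i => isCompact_Icc
  have hclosed : ∀ N, IsClosed (K N) := by
    intro N
    refine hcomp.isClosed.inter ?_
    have : {ξ : ℕ → ℝ | ∀ i < N, ξ i * ξ (i+1) = a i * ξ (i + 1) + 1} =
        ⋂ i : ℕ, ⋂ _ : i < N, {ξ : ℕ → ℝ | ξ i * ξ (i+1) = a i * ξ (i + 1) + 1} := by
      ext ξ
      simp
    rw [this]
    refine isClosed_iInter fun i => isClosed_iInter fun _ => ?_
    exact isClosed_eq (by fun_prop) (by fun_prop)
  have hmono : ∀ N, K (N+1) ⊆ K N := by
    intro N ξ hξ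
    exact ⟨hξ.1, fun i hi => hξ.2 i (by omega)⟩
  have hne : ∀ N, (K N).Nonempty := by
    intro N
    have key : ∀ N : ℕ, ∀ a : ℕ → ℕ, (∀ i, 1 ≤ a i) → ∃ ξ : ℕ → ℝ,
        (∀ i, 1 ≤ ξ i ∧ ξ i ≤ a i + 1) ∧ ∀ i < N, ξ i * ξ (i+1) = a i * ξ (i + 1) + 1 := by
      intro N
      induction N with
      | zero =>
        intro a ha
        refine ⟨fun _ => 1, fun i => ⟨le_refl _, ?_⟩, fun i hi => absurd hi (Nat.not_lt_zero _)⟩
        have : (0:ℝ) ≤ a i := Nat.cast_nonneg _
        linarith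
      | succ N ih =>
        intro a ha
        obtain ⟨ξ, h1, h2⟩ := ih (fun i => a (i+1)) (fun i => ha (i+1))
        refine ⟨fun i => Nat.casesOn i ((a 0 : ℝ) + 1 / ξ 0) ξ, ?_, ?_⟩
        · intro i
          cases i with
          | zero =>
            have h0 := h1 0
            have ha0 : (1:ℝ) ≤ a 0 := by exact_mod_cast ha 0
            have hpos : 0 < ξ 0 := by linarith
            have h3 : 1 / ξ 0 ≤ 1 := by
              rw [div_le_one hpos]; exact h0.1
            have h4 : 0 < 1 / ξ 0 := by positivity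
            constructor
            · show (1:ℝ) ≤ (a 0 : ℝ) + 1 / ξ 0
              linarith
            · show (a 0 : ℝ) + 1 / ξ 0 ≤ a 0 + 1
              linarith
          | succ i => exact h1 i
        · intro i hi
          cases i with
          | zero =>
            have hpos : 0 < ξ 0 := by linarith [(h1 0).1]
            show ((a 0 : ℝ) + 1 / ξ 0) * ξ 0 = a 0 * ξ 0 + 1
            field_simp
          | succ i =>
            exact h2 i (by omega)
    obtain ⟨ξ, h1, h2⟩ := key N a ha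
    exact ⟨ξ, fun i _ => ⟨(h1 i).1, (h1 i).2⟩, h2⟩
  have hcompact0 : IsCompact (K 0) := hcomp.inter_right (by
    have : {ξ : ℕ → ℝ | ∀ i < 0, ξ i * ξ (i+1) = a i * ξ (i + 1) + 1} = Set.univ := by
      ext ξ; simp
    rw [this]; exact isClosed_univ)
  obtain ⟨ξ, hξ⟩ := IsCompact.nonempty_iInter_of_sequence_nonempty_isCompact_isClosed K hmono hne
    hcompact0 hclosed
  rw [Set.mem_iInter] at hξ
  have hge : ∀ i, 1 ≤ ξ i := fun i => ((hξ 0).1 i (Set.mem_univ _)).1
  have heq : ∀ i, ξ i = a i + 1 / ξ (i+1) := by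
    intro i
    have h := (hξ (i+1)).2 i (by omega)
    have hpos : 0 < ξ (i+1) := by linarith [hge (i+1)]
    field_simp
    linarith
  refine ⟨ξ, fun i => ⟨?_, heq i⟩⟩
  have hpos : 0 < ξ (i+1) := by linarith [hge (i+1)]
  have h1 : (1:ℝ) ≤ a i := by exact_mod_cast ha i
  have h2 : 0 < 1 / ξ (i+1) := by positivity
  rw [heq i]
  linarith

/-- The Gauss orbit of `1 / ξ 0`. -/
theorem gauss_iter {a : ℕ → ℕ} {ξ : ℕ → ℝ} (h : ∀ i, 1 < ξ i ∧ ξ i = a i + 1 / ξ (i + 1))
    (n : ℕ) : (fun y : ℝ => Int.fract (1 / y))^[n] (1 / ξ 0) = 1 / ξ n := by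
  induction n with
  | zero => rfl
  | succ n ih =>
    rw [Function.iterate_succ_apply', ih, one_div_one_div]
    have h1 : 1 / ξ (n + 1) < 1 := by
      rw [div_lt_one (by linarith [(h (n + 1)).1])]; exact (h (n + 1)).1
    have h2 : 0 < 1 / ξ (n + 1) := by
      have := (h (n + 1)).1
      positivity
    rw [Int.fract_eq_iff]
    refine ⟨h2.le, h1, (a n : ℤ), ?_⟩
    push_cast
    linarith [(h n).2]

theorem floor_quot {a : ℕ → ℕ} {ξ : ℕ → ℝ} (h : ∀ i, 1 < ξ i ∧ ξ i = a i + 1 / ξ (i + 1))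
    (n : ℕ) : ⌊ξ n⌋ = (a n : ℤ) := by
  have h1 : 1 / ξ (n + 1) < 1 := by
    rw [div_lt_one (by linarith [(h (n + 1)).1])]; exact (h (n + 1)).1
  have h2 : 0 < 1 / ξ (n + 1) := by
    have := (h (n + 1)).1
    positivity
  rw [Int.floor_eq_iff]
  have h3 := (h n).2
  push_cast
  constructor <;> linarith

theorem digits_tendsto {a : ℕ → ℕ} {ξ : ℕ → ℝ} (h : ∀ i, 1 < ξ i ∧ ξ i = a i + 1 / ξ (i + 1))
    (ha : Tendsto a atTop atTop) :
    Tendsto (fun n : ℕ => ⌊1 / ((fun y : ℝ => Int.fract (1 / y))^[n] (1 / ξ 0))⌋)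
      atTop atTop := by
  have h1 : (fun n : ℕ => ⌊1 / ((fun y : ℝ => Int.fract (1 / y))^[n] (1 / ξ 0))⌋)
      = fun n => (a n : ℤ) := by
    funext n
    rw [gauss_iter h, one_div_one_div, floor_quot h]
  rw [h1]
  exact tendsto_natCast_atTop_atTop.comp ha

theorem mem_Ioo_of {a : ℕ → ℕ} {ξ : ℕ → ℝ} (h : ∀ i, 1 < ξ i ∧ ξ i = a i + 1 / ξ (i + 1)) :
    1 / ξ 0 ∈ Set.Ioo (0:ℝ) 1 := by
  have h0 := (h 0).1
  refine ⟨by positivity, ?_⟩
  rw [div_lt_one (by linarith)]
  exact h0

/-! ### Continuants of reversed digit lists -/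

/-- Denominators (current, previous) of the reversed digit list. -/
def den : List ℕ → ℕ × ℕ
  | [] => (1, 0)
  | a :: l => (a * (den l).1 + (den l).2, (den l).1)

/-- Numerators (current, previous) of the reversed digit list. -/
def num : List ℕ → ℕ × ℕ
  | [] => (0, 1)
  | a :: l => (a * (num l).1 + (num l).2, (num l).1)

/-- value of the reversed finite continued fraction -/
noncomputable def val (l : List ℕ) : ℝ := ((num l).1 : ℝ) / (den l).1

/-- sign -/
noncomputable def sg (l : List ℕ) : ℝ := (-1) ^ l.length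

/-- all digits are positive -/
def Pos (l : List ℕ) : Prop := ∀ a ∈ l, 1 ≤ a

theorem Pos.cons {a : ℕ} {l : List ℕ} (ha : 1 ≤ a) (hl : Pos l) : Pos (a :: l) := by
  intro b hb
  rcases List.mem_cons.mp hb with rfl | hb
  · exact ha
  · exact hl b hb

theorem Pos.tail {a : ℕ} {l : List ℕ} (hl : Pos (a :: l)) : Pos l :=
  fun b hb => hl b (List.mem_cons_of_mem _ hb)

theorem den_pos {l : List ℕ} (hl : Pos l) : 1 ≤ (den l).1 ∧ (den l).2 ≤ (den l).1 := by
  induction l with
  | nil => simp [den]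
  | cons a l ih =>
    obtain ⟨h1, h2⟩ := ih hl.tail
    have ha : 1 ≤ a := hl a (List.mem_cons_self)
    simp only [den]
    constructor <;> nlinarith

theorem det (l : List ℕ) : ((num l).2 : ℝ) * (den l).1 - (num l).1 * (den l).2 = sg l := by
  induction l with
  | nil => simp [den, num, sg]
  | cons a l ih =>
    simp only [den, num, sg, List.length_cons, pow_succ]
    unfold sg at ih
    push_cast
    linarith

theorem sg_cons (a : ℕ) (l : List ℕ) : sg (a :: l) = - sg l := by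
  simp [sg, pow_succ]

theorem sg_sq (l : List ℕ) : sg l * sg l = 1 := by
  unfold sg
  rw [← mul_pow]
  norm_num

theorem val_cons {a : ℕ} {l : List ℕ} (hl : Pos (a :: l)) :
    val (a :: l) = val l + sg l / ((den l).1 * (den (a :: l)).1) := by
  have h1 : (0:ℝ) < (den l).1 := by exact_mod_cast (den_pos hl.tail).1
  have h2 : (0:ℝ) < (den (a :: l)).1 := by exact_mod_cast (den_pos hl).1
  have hd := det l
  unfold val
  rw [← hd, div_add_div _ _ h1.ne' (by positivity), div_eq_div_iff h2.ne' (by positivity)]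
  simp only [den, num]
  push_cast
  ring

/-- reversed list of the first `k` digits -/
def R (a : ℕ → ℕ) : ℕ → List ℕ
  | 0 => []
  | k + 1 => a k :: R a k

theorem R_length (a : ℕ → ℕ) (k : ℕ) : (R a k).length = k := by
  induction k with
  | zero => rfl
  | succ k ih => simp [R, ih]

theorem R_pos {a : ℕ → ℕ} (ha : ∀ i, 1 ≤ a i) (k : ℕ) : Pos (R a k) := by
  induction k with
  | zero => intro b hb; simp [R] at hb
  | succ k ih => exact Pos.cons (ha k) ih

theorem quot_formula {a : ℕ → ℕ} {ξ : ℕ → ℝ} (ha : ∀ i, 1 ≤ a i)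
    (h : ∀ i, 1 < ξ i ∧ ξ i = a i + 1 / ξ (i + 1)) (k : ℕ) :
    1 / ξ 0 = ((num (R a k)).1 * ξ k + (num (R a k)).2) / ((den (R a k)).1 * ξ k + (den (R a k)).2) := by
  induction k with
  | zero => simp [R, num, den]
  | succ k ih =>
    have hk := (h (k + 1)).1
    have hk0 : ξ (k + 1) ≠ 0 := by linarith
    have hdp := (den_pos (R_pos ha k)).1
    have hdp' : (1:ℝ) ≤ (den (R a k)).1 := by exact_mod_cast hdp
    have hξk := (h k).1
    have hden1 : (0:ℝ) < (den (R a k)).1 * ξ k + (den (R a k)).2 := by positivity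
    have hden2 : (0:ℝ) < (den (R a (k + 1))).1 * ξ (k + 1) + (den (R a (k + 1))).2 := by
      have h3 := (den_pos (R_pos ha (k + 1))).1
      have h3' : (1:ℝ) ≤ (den (R a (k + 1))).1 := by exact_mod_cast h3
      positivity
    rw [ih, div_eq_div_iff hden1.ne' hden2.ne']
    rw [(h k).2]
    simp only [R, num, den]
    push_cast
    field_simp
    ring

theorem err {a : ℕ → ℕ} {ξ : ℕ → ℝ} (ha : ∀ i, 1 ≤ a i)
    (h : ∀ i, 1 < ξ i ∧ ξ i = a i + 1 / ξ (i + 1)) (k : ℕ) :
    1 / ξ 0 = val (R a k) + sg (R a k) /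
      ((den (R a k)).1 * ((den (R a k)).1 * ξ k + (den (R a k)).2)) := by
  have hdp := (den_pos (R_pos ha k)).1
  have hdp' : (1:ℝ) ≤ (den (R a k)).1 := by exact_mod_cast hdp
  have hξk := (h k).1
  have hden1 : (0:ℝ) < (den (R a k)).1 * ξ k + (den (R a k)).2 := by positivity
  rw [quot_formula ha h k, ← det (R a k)]
  unfold val
  rw [div_add_div _ _ (by positivity) (by positivity),
    div_eq_div_iff hden1.ne' (by positivity)]
  ring

theorem den_R_ge {a : ℕ → ℕ} (ha : ∀ i, 1 ≤ a i) (k : ℕ) : k ≤ (den (R a k)).1 ∧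
    (k ≤ (den (R a (k + 1))).2 ∨ k = 0) := by
  induction k with
  | zero => simp
  | succ k ih =>
    have h1 := ha k
    have h2 := (den_pos (R_pos ha k)).1
    have h3 : k + 1 ≤ (den (R a (k + 1))).1 := by
      rcases Nat.eq_zero_or_pos k with hk | hk
      · subst hk
        exact (den_pos (R_pos ha 1)).1
      · obtain ⟨j, rfl⟩ : ∃ j, k = j + 1 := ⟨k - 1, by omega⟩
        have h4 := ih.1
        have h5 := (den_pos (R_pos ha j)).1
        have h6 : (den (R a (j + 1))).2 = (den (R a j)).1 := rfl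
        have h7 : (den (R a (j + 1 + 1))).1 = a (j + 1) * (den (R a (j + 1))).1
            + (den (R a (j + 1))).2 := rfl
        rw [h7, h6]
        nlinarith
    refine ⟨h3, Or.inl ?_⟩
    show k + 1 ≤ (den (R a (k + 1 + 1))).2
    exact h3

theorem err_le {a : ℕ → ℕ} {ξ : ℕ → ℝ} (ha : ∀ i, 1 ≤ a i)
    (h : ∀ i, 1 < ξ i ∧ ξ i = a i + 1 / ξ (i + 1)) (k : ℕ) (hk : 1 ≤ k) :
    |1 / ξ 0 - val (R a k)| ≤ 1 / k := by
  have hdk : (k:ℝ) ≤ (den (R a k)).1 := by exact_mod_cast (den_R_ge ha k).1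
  have hk' : (1:ℝ) ≤ k := by exact_mod_cast hk
  rw [err ha h k, add_sub_cancel_left, abs_div]
  have h1 : |sg (R a k)| = 1 := by
    unfold sg; rw [abs_pow]; simp
  have hξk := (h k).1
  rw [h1]
  have h2 : (0:ℝ) ≤ (den (R a k)).2 := Nat.cast_nonneg _
  have h3 : (1:ℝ) ≤ (den (R a k)).1 * ξ k + (den (R a k)).2 := by nlinarith
  rw [abs_of_pos (mul_pos (by linarith) (by linarith))]
  apply one_div_le_one_div_of_le (by positivity)
  nlinarith

theorem val_tendsto {a : ℕ → ℕ} {ξ : ℕ → ℝ} (ha : ∀ i, 1 ≤ a i)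
    (h : ∀ i, 1 < ξ i ∧ ξ i = a i + 1 / ξ (i + 1)) :
    Tendsto (fun k => val (R a k)) atTop (𝓝 (1 / ξ 0)) := by
  rw [tendsto_iff_dist_tendsto_zero]
  have h0 : Tendsto (fun k : ℕ => 1 / (k : ℝ)) atTop (𝓝 0) := tendsto_one_div_atTop_nhds_zero_nat
  refine tendsto_of_tendsto_of_tendsto_of_le_of_le' tendsto_const_nhds h0
    (Eventually.of_forall fun k => dist_nonneg) ?_
  filter_upwards [eventually_ge_atTop 1] with k hk
  rw [dist_comm, Real.dist_eq]
  exact err_le ha h k hk

/-! ### Limits of chains of lists -/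

theorem R_eq (a : ℕ → ℕ) (k : ℕ) : R a k = ((List.range k).map a).reverse := by
  induction k with
  | zero => rfl
  | succ k ih => simp [R, ih, List.range_succ]

/-- A chain of reversed lists determines an infinite digit sequence. -/
theorem exists_limit (L : ℕ → List ℕ) (hs : ∀ k, L k <:+ L (k + 1)) (hlen : ∀ k, k ≤ (L k).length) :
    ∃ a : ℕ → ℕ, ∀ k, L k = R a (L k).length := by
  have hs' : ∀ j k, j ≤ k → L j <:+ L k := by
    intro j k hjk
    induction hjk with
    | refl => exact List.suffix_refl _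
    | step _ ih => exact ih.trans (hs _)
  refine ⟨fun n => (L (n + 1)).reverse.getD n 0, fun k => ?_⟩
  rw [R_eq, ← List.reverse_inj, List.reverse_reverse]
  apply List.ext_getElem
  · simp
  · intro n h1 h2
    rw [List.length_reverse] at h1
    rw [List.getElem_map, List.getElem_range]
    have hn1 : n < (L (n + 1)).reverse.length := by
      rw [List.length_reverse]
      have := hlen (n + 1)
      omega
    rw [List.getD_eq_getElem _ _ hn1]
    rcases le_total k (n + 1) with hk | hk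
    · have hp : (L k).reverse <+: (L (n + 1)).reverse := List.reverse_prefix.mpr (hs' _ _ hk)
      exact List.IsPrefix.getElem hp _
    · have hp : (L (n + 1)).reverse <+: (L k).reverse := List.reverse_prefix.mpr (hs' _ _ hk)
      exact (List.IsPrefix.getElem hp hn1).symm

end Pool.Agent.X86.CF
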