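import Pool.Agent.X86.CF.Basic

set_option autoImplicit false

open Filter Topology

namespace Pool.Agent.X86.CF

/-! ### Rational numbers -/

theorem den_num_append (l : List ℕ) (a : ℕ) :
    (den (l ++ [a])).1 = a * (den l).1 + (num l).1 ∧ (den (l ++ [a])).2 = a * (den l).2 + (num l).2 ∧
    (num (l ++ [a])).1 = (den l).1 ∧ (num (l ++ [a])).2 = (den l).2 := by
  induction l with
  | nil => simp [den, num]
  | cons b l ih =>
    obtain ⟨h1, h2, h3, h4⟩ := ih
    simp only [List.cons_append, den, num, h1, h2, h3, h4]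
    refine ⟨by ring, trivial, trivial, trivial⟩

theorem val_append {l : List ℕ} (hl : Pos l) {a : ℕ} (ha : 1 ≤ a) :
    val (l ++ [a]) = 1 / (a + val l) := by
  obtain ⟨h1, -, h3, -⟩ := den_num_append l a
  have hd : (0:ℝ) < (den l).1 := by exact_mod_cast (den_pos hl).1
  have ha' : (1:ℝ) ≤ a := by exact_mod_cast ha
  unfold val
  rw [h1, h3]
  push_cast
  have hn : (0:ℝ) ≤ (num l).1 := Nat.cast_nonneg _
  rw [div_eq_div_iff (by positivity) (by positivity)]
  field_simp

theorem Pos.append {l : List ℕ} (hl : Pos l) {a : ℕ} (ha : 1 ≤ a) : Pos (l ++ [a]) := by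
  intro b hb
  rcases List.mem_append.mp hb with h | h
  · exact hl b h
  · rw [List.mem_singleton] at h; rw [h]; exact ha

theorem rat_list (D : ℕ) : ∀ j : ℕ, 1 ≤ j → j < D → ∀ par : ℕ,
    ∃ l : List ℕ, Pos l ∧ l.length % 2 = par % 2 ∧ val l = (j:ℝ) / D := by
  induction D using Nat.strong_induction_on with
  | _ D ih =>
    intro j hj hjD par
    have hD := Nat.div_add_mod D j
    set a := D / j with ha
    set r := D % j with hr
    have hrj : r < j := Nat.mod_lt _ (by omega)
    have ha1 : 1 ≤ a := Nat.div_pos hjD.le (by omega)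
    have hjR : (0:ℝ) < j := by exact_mod_cast hj
    rcases Nat.eq_zero_or_pos r with h0 | h0
    · have ha2 : 2 ≤ a := by
        by_contra hcon
        have : a = 1 := by omega
        rw [this, h0] at hD
        omega
      have hDR : (D:ℝ) = j * a := by
        rw [h0] at hD
        exact_mod_cast hD.symm
      have haR : (2:ℝ) ≤ a := by exact_mod_cast ha2
      have hval : (j:ℝ) / D = 1 / a := by
        rw [hDR]; field_simp
      rcases Nat.mod_two_eq_zero_or_one par with hp | hp
      · obtain ⟨b, hb⟩ : ∃ b, a = b + 1 := ⟨a - 1, by omega⟩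
        refine ⟨[1, b], ?_, by simp [hp], ?_⟩
        · intro c hc
          simp only [List.mem_cons, List.not_mem_nil, or_false] at hc
          omega
        · rw [hval, hb]
          simp [val, num, den]
      · refine ⟨[a], ?_, by simp [hp], ?_⟩
        · intro c hc
          simp only [List.mem_cons, List.not_mem_nil, or_false] at hc
          omega
        · rw [hval]
          simp [val, num, den]
    · obtain ⟨l, h1, h2, h3⟩ := ih j hjD r h0 hrj (par + 1)
      refine ⟨l ++ [a], h1.append ha1, ?_, ?_⟩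
      · rw [List.length_append, List.length_singleton]
        omega
      · rw [val_append h1 ha1, h3]
        have hDR : (D:ℝ) = j * a + r := by exact_mod_cast hD.symm
        have haR : (1:ℝ) ≤ a := by exact_mod_cast ha1
        rw [hDR]
        field_simp

theorem rat_list' {x : ℝ} (hx0 : 0 < x) (hx1 : x ≤ 1) (hx : ¬ Irrational x) :
    ∃ l : List ℕ, Pos l ∧ sg l = -1 ∧ val l = x := by
  rcases eq_or_lt_of_le hx1 with h | h
  · refine ⟨[1], ?_, by simp [sg], by simp [val, num, den, h]⟩
    intro c hc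
    simp only [List.mem_cons, List.not_mem_nil, or_false] at hc
    omega
  · unfold Irrational at hx
    push Not at hx
    obtain ⟨q, rfl⟩ := hx
    have hq0 : 0 < q := by exact_mod_cast hx0
    have hq1 : q < 1 := by exact_mod_cast h
    have hnum : 0 < q.num := Rat.num_pos.mpr hq0
    obtain ⟨j, hj⟩ : ∃ j : ℕ, q.num = j := ⟨q.num.toNat, by omega⟩
    have hqe : (q : ℝ) = (j : ℝ) / q.den := by
      have := Rat.num_div_den q
      rw [hj] at this
      conv_lhs => rw [← this]
      push_cast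
      rfl
    have hden : (0:ℝ) < q.den := by exact_mod_cast q.den_pos
    have hjd : j < q.den := by
      rw [hqe, div_lt_one hden] at h
      exact_mod_cast h
    obtain ⟨l, h1, h2, h3⟩ := rat_list q.den j (by omega) hjd 1
    refine ⟨l, h1, ?_, by rw [h3, hqe]⟩
    unfold sg
    have : Odd l.length := Nat.odd_iff.mpr (by simpa using h2)
    exact this.neg_one_pow

/-- list to sequence -/
theorem exists_seq_of_list (l : List ℕ) (t : ℕ → ℕ) :
    ∃ a : ℕ → ℕ, R a l.length = l ∧ ∀ i, a (l.length + i) = t i := by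
  refine ⟨fun i => if h : i < l.length then l.reverse[i]'(by simpa using h) else t (i - l.length),
    ?_, ?_⟩
  · rw [R_eq, ← List.reverse_inj, List.reverse_reverse]
    apply List.ext_getElem
    · simp
    · intro n h1 h2
      rw [List.getElem_map, List.getElem_range]
      have : n < l.length := by simpa using h2
      rw [dif_pos this]
  · intro i
    simp only
    rw [dif_neg (by omega), Nat.add_sub_cancel_left]

theorem rational_case {x : ℝ} (hx0 : 0 < x) (hx1 : x ≤ 1) (hx : ¬ Irrational x) :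
    ∃ (a b : ℕ → ℕ) (ξ ζ : ℕ → ℝ), Tendsto a atTop atTop ∧ Tendsto b atTop atTop ∧
      (∀ i, 1 < ξ i ∧ ξ i = a i + 1 / ξ (i + 1)) ∧ (∀ i, 1 < ζ i ∧ ζ i = b i + 1 / ζ (i + 1)) ∧
      x = 1 / ξ 0 + 1 / ζ 0 := by
  obtain ⟨l, hl, hsg, hval⟩ := rat_list' hx0 hx1 hx
  set Q := (den l).1 with hQ
  set Q' := (den l).2 with hQ'
  have hQ1 : 1 ≤ Q := (den_pos hl).1
  have hQR : (1:ℝ) ≤ Q := by exact_mod_cast hQ1
  set n := l.length with hn
  obtain ⟨a, haR, hat⟩ := exists_seq_of_list l (fun i => if Even i then i + 1 else Q ^ 2 * (i + 1))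
  rw [← hn] at haR hat
  have hlb : ∀ i, i + 1 ≤ (if Even i then i + 1 else Q ^ 2 * (i + 1)) := by
    intro i
    split_ifs
    · exact le_rfl
    · exact Nat.le_mul_of_pos_left _ (by positivity)
  have ha1 : ∀ i, 1 ≤ a i := by
    intro i
    rcases lt_or_ge i n with h | h
    · have hmem : a i ∈ l := by
        rw [← haR, R_eq, List.mem_reverse, List.mem_map]
        exact ⟨i, List.mem_range.mpr h, rfl⟩
      exact hl _ hmem
    · obtain ⟨j, rfl⟩ : ∃ j, i = n + j := ⟨i - n, by omega⟩
      rw [hat]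
      have := hlb j
      omega
  obtain ⟨ξ, hξ⟩ := exists_quot a ha1
  have hta : Tendsto a atTop atTop := by
    rw [tendsto_atTop_atTop]
    intro K
    refine ⟨n + K, fun i hi => ?_⟩
    obtain ⟨j, rfl⟩ : ∃ j, i = n + j := ⟨i - n, by omega⟩
    rw [hat]
    have := hlb j
    omega
  let b : ℕ → ℕ := fun i => if i = 0 then Q ^ 2 * 1 + Q * Q' else
    if Even i then Q ^ 2 * (i + 1) else i + 1
  let ζ : ℕ → ℝ := fun i => if i = 0 then Q ^ 2 * ξ n + Q * Q' else
    if Even i then Q ^ 2 * ξ (n + i) else ξ (n + i) / Q ^ 2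
  have hb1 : ∀ i, i + 1 ≤ b i := by
    intro i
    simp only [b]
    split_ifs with h1 h2
    · subst h1
      have : 0 < Q ^ 2 := by positivity
      omega
    · exact Nat.le_mul_of_pos_left _ (by positivity)
    · exact le_rfl
  have hξpos : ∀ i, 0 < ξ i := fun i => by linarith [(hξ i).1]
  have hζpos : ∀ i, 0 < ζ i := by
    intro i
    have h1 := hξpos (n + i)
    have h2 := hξpos n
    simp only [ζ]
    split_ifs <;> positivity
  have hrec : ∀ i, ζ i = b i + 1 / ζ (i + 1) := by
    intro i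
    have hne : ξ (n + i + 1) ≠ 0 := (hξpos _).ne'
    have h := (hξ (n + i)).2
    have hdig := hat i
    rcases Nat.eq_zero_or_pos i with h0 | h0
    · subst h0
      have e1 : ζ 0 = Q ^ 2 * ξ n + Q * Q' := by simp [ζ]
      have e2 : ζ (0 + 1) = ξ (n + 1) / Q ^ 2 := by simp [ζ]
      have e3 : b 0 = Q ^ 2 * 1 + Q * Q' := by simp [b]
      simp only [add_zero] at h hdig
      simp only [Even.zero, if_true, zero_add] at hdig
      rw [e1, e2, e3, h, hdig]
      push_cast
      field_simp
      ring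
    · have h0' : i ≠ 0 := by omega
      rcases Nat.even_or_odd i with he | ho
      · have ho' : ¬ Even (i + 1) := by rw [Nat.not_even_iff_odd]; exact he.add_one
        have e1 : ζ i = Q ^ 2 * ξ (n + i) := by simp [ζ, h0', he]
        have e2 : ζ (i + 1) = ξ (n + (i + 1)) / Q ^ 2 := by simp [ζ, ho']
        have e3 : b i = Q ^ 2 * (i + 1) := by simp [b, h0', he]
        rw [if_pos he] at hdig
        rw [e1, e2, e3, h, hdig]
        push_cast
        rw [← add_assoc n i 1]
        field_simp
      · have hne' : ¬ Even i := Nat.not_even_iff_odd.mpr ho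
        have e1 : ζ i = ξ (n + i) / Q ^ 2 := by simp [ζ, h0', hne']
        have e2 : ζ (i + 1) = Q ^ 2 * ξ (n + (i + 1)) := by simp [ζ, ho.add_one]
        have e3 : b i = i + 1 := by simp [b, h0', hne']
        rw [if_neg hne'] at hdig
        rw [e1, e2, e3, h, hdig]
        push_cast
        rw [← add_assoc n i 1]
        field_simp
  refine ⟨a, b, ξ, ζ, hta, ?_, hξ, fun i => ⟨?_, hrec i⟩, ?_⟩
  · rw [tendsto_atTop_atTop]
    intro K
    refine ⟨K, fun i hi => ?_⟩
    have := hb1 i
    omega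
  · have h1 : (1:ℝ) ≤ b i := by
      have := hb1 i
      exact_mod_cast (by omega : 1 ≤ b i)
    have h2 : 0 < 1 / ζ (i + 1) := by
      have := hζpos (i + 1)
      positivity
    rw [hrec i]
    linarith
  · have herr := err ha1 hξ n
    rw [haR, hsg, hval, ← hQ, ← hQ'] at herr
    have e1 : ζ 0 = Q ^ 2 * ξ n + Q * Q' := by simp [ζ]
    have e2 : (Q:ℝ) * (Q * ξ n + Q') = ζ 0 := by rw [e1]; ring
    rw [herr, e2]
    ring

/-! ### Irrational numbers -/

/-- state of the algorithm: mover `lm`, other list `lo` -/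
def G (x : ℝ) (lm lo : List ℕ) (w : ℕ) : Prop :=
  Pos lm ∧ Pos lo ∧ sg lm = sg lo ∧ 0 < sg lm * (x - val lm - val lo) ∧
    (w : ℝ) * (den lm).1 * (den lo).1 * (sg lm * (x - val lm - val lo)) ≤ 1 ∧
    (den lm).1 ≤ (den lo).1

theorem irr_r {x : ℝ} (hx : Irrational x) (l m : List ℕ) (q : ℚ) :
    sg l * (x - val l - val m) ≠ q := by
  intro h
  have h1 : x = (((-1) ^ l.length * q + (num l).1 / (den l).1 + (num m).1 / (den m).1 : ℚ) : ℝ) := by
    push_cast
    have h2 := sg_sq l
    have h3 : sg l * q = x - val l - val m := by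
      rw [← h, ← mul_assoc, h2, one_mul]
    have h4 : ((-1:ℝ)) ^ l.length = sg l := rfl
    rw [h4, h3]
    unfold val
    ring
  rw [h1] at hx
  exact hx ⟨_, rfl⟩

theorem round {x : ℝ} (hx : Irrational x) {lm lo : List ℕ} {w : ℕ} (hw : 3 ≤ w)
    (hG : G x lm lo w) : ∃ t1 t2 : List ℕ, (∀ a ∈ t1, w ≤ a + 2) ∧ (∀ a ∈ t2, w ≤ a + 2) ∧
      t1 ≠ [] ∧ ((t2 ≠ [] ∧ G x (t1 ++ lm) (t2 ++ lo) (w + 1)) ∨
        (t2 = [] ∧ G x lo (t1 ++ lm) (w + 1))) := by
  obtain ⟨hpm, hpo, hsg, hr0, hwr, hAB⟩ := hG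
  set A : ℝ := ((den lm).1 : ℝ) with hA
  set A0 : ℝ := ((den lm).2 : ℝ) with hA0
  set B : ℝ := ((den lo).1 : ℝ) with hB
  set B0 : ℝ := ((den lo).2 : ℝ) with hB0
  set s : ℝ := sg lm with hs
  set r : ℝ := s * (x - val lm - val lo) with hr
  have hw' : (3:ℝ) ≤ w := by exact_mod_cast hw
  have hA1 : 1 ≤ A := by rw [hA]; exact_mod_cast (den_pos hpm).1
  have hB1 : 1 ≤ B := by rw [hB]; exact_mod_cast (den_pos hpo).1
  have hA0A : A0 ≤ A := by rw [hA, hA0]; exact_mod_cast (den_pos hpm).2
  have hB0B : B0 ≤ B := by rw [hB, hB0]; exact_mod_cast (den_pos hpo).2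
  have hA00 : 0 ≤ A0 := Nat.cast_nonneg _
  have hB00 : 0 ≤ B0 := Nat.cast_nonneg _
  have hABr : A ≤ B := by rw [hA, hB]; exact_mod_cast hAB
  have hss : s * s = 1 := sg_sq lm
  have hApos : 0 < A := by linarith
  have hBpos : 0 < B := by linarith
  -- T
  set T : ℝ := 1 / (A * r) with hT
  have hTpos : 0 < T := by positivity
  have hrT : r = 1 / (A * T) := by
    rw [hT]; field_simp
  have hTB : w * B ≤ T := by
    rw [hT, le_div_iff₀ (by positivity)]
    have h1 : w * B * (A * r) = w * A * B * r := by ring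
    rw [h1]; exact hwr
  have hT3 : 3 * B ≤ T := by
    have h1 := mul_le_mul_of_nonneg_right hw' hBpos.le
    linarith
  have hwAB : w * A ≤ w * B := mul_le_mul_of_nonneg_left hABr (by linarith)
  -- a
  have hquo : 0 ≤ (T - A0) / A := div_nonneg (by linarith) hApos.le
  obtain ⟨a, ha⟩ : ∃ a : ℕ, a = ⌈(T - A0) / A⌉₊ := ⟨_, rfl⟩
  have ha1 : (T - A0) / A ≤ a := by rw [ha]; exact Nat.le_ceil _
  have ha2 : (a:ℝ) < (T - A0) / A + 1 := by rw [ha]; exact Nat.ceil_lt_add_one hquo
  rw [div_le_iff₀ hApos] at ha1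
  have ha2' : (a:ℝ) * A < T - A0 + A := by
    have h1 : ((T - A0) / A + 1) * A = T - A0 + A := by field_simp
    rw [← h1]
    exact mul_lt_mul_of_pos_right ha2 hApos
  set A1 : ℝ := a * A + A0 with hA1def
  have hA1T : T ≤ A1 := by linarith
  have hA1T' : A1 < T + A := by linarith
  have haw : (w:ℝ) - 1 ≤ a := by
    have h1 : ((w:ℝ) - 1) * A ≤ a * A := by
      have h2 : ((w:ℝ) - 1) * A = w * A - A := by ring
      rw [h2]
      linarith
    exact le_of_mul_le_mul_right h1 hApos
  have haw' : w - 1 ≤ a := by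
    have : ((w - 1 : ℕ) : ℝ) ≤ a := by rw [Nat.cast_sub (by omega)]; simpa using haw
    exact_mod_cast this
  have hA1pos : 0 < A1 := by linarith
  have hne : T ≠ A1 := by
    intro h
    have h1 : r = ((1 / ((den lm).1 * (a * (den lm).1 + (den lm).2)) : ℚ) : ℝ) := by
      rw [hrT, h, hA1def, hA, hA0]
      push_cast
      rfl
    exact irr_r hx lm lo _ h1
  have hA1T2 : T < A1 := lt_of_le_of_ne hA1T hne
  rcases le_or_gt ((A1 - T) * (w + 1)) (A * w) with hcase | hcase
  · -- Case 1
    have hp1 : Pos (a :: lm) := Pos.cons (by omega) hpm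
    have hdA1 : ((den (a :: lm)).1 : ℝ) = A1 := by
      simp only [den]; push_cast; rfl
    have hsg1 : sg (a :: lm) = - s := sg_cons a lm
    set r1 : ℝ := r - 1 / (A * A1) with hr1
    have hr1e : r1 = (A1 - T) / (A * A1 * T) := by
      rw [hr1, hrT]; field_simp
    have hr1pos : 0 < r1 := by
      rw [hr1e]; apply div_pos (by linarith) (by positivity)
    set T1 : ℝ := 1 / (B * r1) with hT1
    have hT1pos : 0 < T1 := by positivity
    have hr1T : r1 = 1 / (B * T1) := by rw [hT1]; field_simp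
    have hT1A : (w + 1) * A1 ≤ T1 := by
      rw [hT1, le_div_iff₀ (by positivity), hr1e]
      have h1 : (w + 1) * A1 * (B * ((A1 - T) / (A * A1 * T))) = ((A1 - T) * (w + 1)) * B / (A * T) := by
        field_simp
      rw [h1, div_le_one (by positivity)]
      have h2 : (A1 - T) * (w + 1) * B ≤ A * w * B := mul_le_mul_of_nonneg_right hcase hBpos.le
      have h3 : A * (w * B) ≤ A * T := mul_le_mul_of_nonneg_left hTB hApos.le
      linarith
    have hBA1 : B ≤ A1 := by linarith
    have hwA1 : 3 * A1 ≤ w * A1 := mul_le_mul_of_nonneg_right hw' hA1pos.le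
    have hwBA1 : w * B ≤ w * A1 := mul_le_mul_of_nonneg_left hBA1 (by linarith)
    have hT1e : w * A1 + A1 ≤ T1 := by
      have h1 : (w + 1) * A1 = w * A1 + A1 := by ring
      linarith
    have hquo1 : 0 < (T1 - B0) / B := div_pos (by linarith) hBpos
    obtain ⟨c, hc⟩ : ∃ c : ℕ, c = ⌈(T1 - B0) / B⌉₊ := ⟨_, rfl⟩
    have hc1 : (T1 - B0) / B ≤ c := by rw [hc]; exact Nat.le_ceil _
    have hc2 : (c:ℝ) < (T1 - B0) / B + 1 := by rw [hc]; exact Nat.ceil_lt_add_one hquo1.le
    have hc0 : 0 < c := by rw [hc]; exact Nat.ceil_pos.mpr hquo1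
    obtain ⟨b, rfl⟩ : ∃ b, c = b + 1 := ⟨c - 1, by omega⟩
    push_cast at hc1 hc2
    rw [div_le_iff₀ hBpos] at hc1
    have hc2' : (b:ℝ) * B < T1 - B0 := by
      have h1 : (b:ℝ) < (T1 - B0) / B := by linarith
      rwa [lt_div_iff₀ hBpos] at h1
    set B1 : ℝ := b * B + B0 with hB1def
    have hB1T : B1 < T1 := by linarith
    have hB1T' : T1 - B ≤ B1 := by linarith
    have hbw : (w:ℝ) - 1 ≤ b := by
      have h1 : ((w:ℝ) - 1) * B ≤ b * B := by
        have h2 : ((w:ℝ) - 1) * B = w * B - B := by ring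
        rw [h2]
        linarith
      exact le_of_mul_le_mul_right h1 hBpos
    have hbw' : w - 1 ≤ b := by
      have : ((w - 1 : ℕ) : ℝ) ≤ b := by rw [Nat.cast_sub (by omega)]; simpa using hbw
      exact_mod_cast this
    have hB1pos : 0 < B1 := by linarith
    have hp2 : Pos (b :: lo) := Pos.cons (by omega) hpo
    have hdB1 : ((den (b :: lo)).1 : ℝ) = B1 := by
      simp only [den]; push_cast; rfl
    refine ⟨[a], [b], ?_, ?_, by simp, Or.inl ⟨by simp, ?_⟩⟩
    · intro c hc; rw [List.mem_singleton] at hc; omega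
    · intro c hc; rw [List.mem_singleton] at hc; omega
    · have hv1 : val (a :: lm) = val lm + s / (A * A1) := by
        rw [val_cons hp1, hdA1]
      have hv2 : val (b :: lo) = val lo + s / (B * B1) := by
        rw [val_cons hp2, hdB1, ← hsg]
      have hr2 : sg (a :: lm) * (x - val (a :: lm) - val (b :: lo)) = 1 / (B * B1) - r1 := by
        rw [hsg1, hv1, hv2, hr1, hr]
        have h1 : s / (A * A1) = s * (1 / (A * A1)) := by ring
        have h2 : s / (B * B1) = s * (1 / (B * B1)) := by ring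
        rw [h1, h2]
        linear_combination (1 / (A * A1) + 1 / (B * B1)) * hss
      have hr2e : 1 / (B * B1) - r1 = (T1 - B1) / (B * B1 * T1) := by
        rw [hr1T]; field_simp
      show G x (a :: lm) (b :: lo) (w + 1)
      refine ⟨hp1, hp2, ?_, ?_, ?_, ?_⟩
      · rw [sg_cons, sg_cons, ← hsg]
      · rw [hr2, hr2e]
        exact div_pos (by linarith) (by positivity)
      · rw [hr2, hr2e, hdA1, hdB1]
        push_cast
        have h1 : ((w:ℝ) + 1) * A1 * B1 * ((T1 - B1) / (B * B1 * T1))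
            = ((w + 1) * A1) * (T1 - B1) / (B * T1) := by field_simp
        rw [h1, div_le_one (by positivity)]
        have h3 : T1 - B1 ≤ B := by linarith
        calc (w + 1) * A1 * (T1 - B1) ≤ T1 * B := by
              apply mul_le_mul hT1A h3 (by linarith) hT1pos.le
          _ = B * T1 := by ring
      · have h1 : A1 ≤ B1 := by linarith
        have h2 : ((den (a :: lm)).1 : ℝ) ≤ ((den (b :: lo)).1 : ℝ) := by rw [hdA1, hdB1]; exact h1
        exact_mod_cast h2
  · -- Case 2
    obtain ⟨a1, rfl⟩ : ∃ a1, a = a1 + 1 := ⟨a - 1, by omega⟩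
    push_cast at hA1def haw
    set A1' : ℝ := a1 * A + A0 with hA1'
    have hA11 : A1 = A1' + A := by rw [hA1def, hA1']; ring
    have hA1'T : A1' < T := by linarith
    have hgap : (T - A1') * (w + 1) < A := by
      have h1 : (T - A1') * (w + 1) = A * w + A - (A1 - T) * (w + 1) := by rw [hA11]; ring
      rw [h1]
      linarith
    have hp1 : Pos (a1 :: lm) := Pos.cons (by omega) hpm
    have hdA1 : ((den (a1 :: lm)).1 : ℝ) = A1' := by
      simp only [den]; push_cast; rfl
    have ha1' : (1:ℝ) ≤ a1 := by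
      have : 1 ≤ a1 := by omega
      exact_mod_cast this
    have hAA1' : A ≤ A1' := by
      have h1 := mul_le_mul_of_nonneg_right ha1' hApos.le
      linarith
    have hA1'pos : 0 < A1' := by linarith
    set r1 : ℝ := 1 / (A * A1') - r with hr1
    have hr1e : r1 = (T - A1') / (A * A1' * T) := by
      rw [hr1, hrT]; field_simp
    have hr1pos : 0 < r1 := by
      rw [hr1e]; apply div_pos (by linarith) (by positivity)
    set T2 : ℝ := 1 / (A1' * r1) with hT2
    have hT2pos : 0 < T2 := by positivity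
    have hr1T : r1 = 1 / (A1' * T2) := by rw [hT2]; field_simp
    have hT2T : (w + 1) * T ≤ T2 := by
      rw [hT2, le_div_iff₀ (by positivity), hr1e]
      have h1 : (w + 1) * T * (A1' * ((T - A1') / (A * A1' * T))) = ((T - A1') * (w + 1)) / A := by
        field_simp
      rw [h1, div_le_one (by positivity)]
      exact hgap.le
    have hwT : 3 * T ≤ w * T := mul_le_mul_of_nonneg_right hw' hTpos.le
    have hT2e : w * T + T ≤ T2 := by
      have h1 : (w + 1) * T = w * T + T := by ring
      linarith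
    have hwA1T : w * A1' ≤ w * T := mul_le_mul_of_nonneg_left hA1'T.le (by linarith)
    have hquo1 : 0 < (T2 - A) / A1' := div_pos (by linarith) hA1'pos
    obtain ⟨c, hc⟩ : ∃ c : ℕ, c = ⌈(T2 - A) / A1'⌉₊ := ⟨_, rfl⟩
    have hc1 : (T2 - A) / A1' ≤ c := by rw [hc]; exact Nat.le_ceil _
    have hc2 : (c:ℝ) < (T2 - A) / A1' + 1 := by rw [hc]; exact Nat.ceil_lt_add_one hquo1.le
    have hc0 : 0 < c := by rw [hc]; exact Nat.ceil_pos.mpr hquo1
    obtain ⟨b, rfl⟩ : ∃ b, c = b + 1 := ⟨c - 1, by omega⟩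
    push_cast at hc1 hc2
    rw [div_le_iff₀ hA1'pos] at hc1
    have hc2' : (b:ℝ) * A1' < T2 - A := by
      have h1 : (b:ℝ) < (T2 - A) / A1' := by linarith
      rwa [lt_div_iff₀ hA1'pos] at h1
    set A2 : ℝ := b * A1' + A with hA2def
    have hA2T : A2 < T2 := by linarith
    have hA2T' : T2 - A1' ≤ A2 := by linarith
    have hbw : (w:ℝ) - 1 ≤ b := by
      have h1 : ((w:ℝ) - 1) * A1' ≤ b * A1' := by
        have h2 : ((w:ℝ) - 1) * A1' = w * A1' - A1' := by ring
        rw [h2]
        linarith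
      exact le_of_mul_le_mul_right h1 hA1'pos
    have hbw' : w - 1 ≤ b := by
      have : ((w - 1 : ℕ) : ℝ) ≤ b := by rw [Nat.cast_sub (by omega)]; simpa using hbw
      exact_mod_cast this
    have hA2pos : 0 < A2 := by linarith
    have hp2 : Pos (b :: a1 :: lm) := Pos.cons (by omega) hp1
    have hdA2 : ((den (b :: a1 :: lm)).1 : ℝ) = A2 := by
      simp only [den]; push_cast; rfl
    refine ⟨[b, a1], [], ?_, by simp, by simp, Or.inr ⟨rfl, ?_⟩⟩
    · intro c hc
      simp only [List.mem_cons, List.not_mem_nil, or_false] at hc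
      omega
    · have hv1 : val (a1 :: lm) = val lm + s / (A * A1') := by
        rw [val_cons hp1, hdA1]
      have hv2 : val (b :: a1 :: lm) = val lm + s / (A * A1') - s / (A1' * A2) := by
        rw [val_cons hp2, hdA2, hdA1, hv1, sg_cons]
        ring
      have hr2 : sg lo * (x - val lo - val (b :: a1 :: lm)) = 1 / (A1' * A2) - r1 := by
        rw [← hsg, hv2, hr1, hr]
        have h1 : s / (A * A1') = s * (1 / (A * A1')) := by ring
        have h2 : s / (A1' * A2) = s * (1 / (A1' * A2)) := by ring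
        rw [h1, h2]
        linear_combination (1 / (A1' * A2) - 1 / (A * A1')) * hss
      have hr2e : 1 / (A1' * A2) - r1 = (T2 - A2) / (A1' * A2 * T2) := by
        rw [hr1T]; field_simp
      show G x lo (b :: a1 :: lm) (w + 1)
      refine ⟨hpo, hp2, ?_, ?_, ?_, ?_⟩
      · rw [sg_cons, sg_cons, ← hsg, neg_neg]
      · rw [hr2, hr2e]
        exact div_pos (by linarith) (by positivity)
      · rw [hr2, hr2e, hdA2]
        push_cast
        have h1 : ((w:ℝ) + 1) * B * A2 * ((T2 - A2) / (A1' * A2 * T2))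
            = ((w + 1) * B) * (T2 - A2) / (A1' * T2) := by field_simp
        rw [h1, div_le_one (by positivity)]
        have h2 : (w + 1) * B ≤ T2 := by
          have h4 : (w + 1) * B = w * B + B := by ring
          linarith
        have h3 : T2 - A2 ≤ A1' := by linarith
        calc (w + 1) * B * (T2 - A2) ≤ T2 * A1' := by
              apply mul_le_mul h2 h3 (by linarith) hT2pos.le
          _ = A1' * T2 := by ring
      · have h1 : B ≤ A2 := by linarith
        have h2 : ((den lo).1 : ℝ) ≤ ((den (b :: a1 :: lm)).1 : ℝ) := by rw [hdA2]; exact h1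
        exact_mod_cast h2

end Pool.Agent.X86.CF
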